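import Mathlib

set_option autoImplicit false

open Set Filter Topology TopologicalSpace

namespace Pool.Agent.Results.MP_04f724_gt.NonMetrizableExample

/-- A topological space is omega-bounded if the closure (in the space itself) of every
countable subset is compact. -/
def OmegaBounded (X : Type) [TopologicalSpace X] : Prop :=
  ∀ C : Set X, C.Countable → IsCompact (closure C)

/-- The inclusion of a subgroup, as a continuous homomorphism. -/
def incl {G : Type} [CommGroup G] [TopologicalSpace G] (H : Subgroup G) : H →ₜ* G :=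
  { H.subtype with continuous_toFun := continuous_subtype_val }

/-- `H` determines `G` when the restriction map from the dual of `G` to the dual of `H`
(Pontryagin duals carry the compact-open topology) is a homeomorphism. -/
def Determines {G : Type} [CommGroup G] [TopologicalSpace G] (H : Subgroup G) : Prop :=
  IsHomeomorph (fun χ : PontryaginDual G => PontryaginDual.map (incl H) χ)

/-- The index set: a well order of type omega_1. -/
abbrev Idx : Type := (Cardinal.aleph 1).ord.ToType

/-- The group `(Z/2)^(omega_1)`. -/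
abbrev GG : Type := Idx → ℤˣ

theorem countable_Iic (m : Idx) : (Iic m).Countable := by
  have h : (Iio m).Countable := by
    rw [← Cardinal.le_aleph0_iff_set_countable, ← Order.lt_succ_iff, Cardinal.succ_aleph0]
    refine Cardinal.mk_Iio_lt m ?_ |>.trans_eq (Cardinal.mk_ord_toType _)
    rw [Cardinal.mk_ord_toType, Ordinal.type_toType]
  rw [← Iio_insert]
  exact h.insert m

theorem uncountable_Idx : ¬ (univ : Set Idx).Countable := by
  rw [← Cardinal.le_aleph0_iff_set_countable, Cardinal.mk_univ, Cardinal.mk_ord_toType, not_le]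
  exact Cardinal.aleph0_lt_aleph_one

theorem sq_one (x : ℤˣ) : x * x = 1 := by
  rcases Int.units_eq_one_or x with h | h <;> simp [h]

/-- In an omega-bounded subgroup, countable subsets have closure inside the subgroup. -/
theorem closure_sub {G : Type} [CommGroup G] [TopologicalSpace G] [T2Space G] (H : Subgroup G)
    (hb : OmegaBounded H) (C : Set G) (hC : C.Countable) (hCH : C ⊆ H) :
    closure C ⊆ (H : Set G) ∧ IsCompact (closure C) := by
  have hC' : (Subtype.val ⁻¹' C : Set H).Countable := hC.preimage Subtype.val_injective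
  have h1 : IsCompact (Subtype.val '' (closure (Subtype.val ⁻¹' C : Set H)) : Set G) :=
    (hb _ hC').image continuous_subtype_val
  have h2 : C ⊆ (Subtype.val '' (closure (Subtype.val ⁻¹' C : Set H)) : Set G) := by
    intro x hx
    exact ⟨⟨x, hCH hx⟩, subset_closure hx, rfl⟩
  have h3 : closure C ⊆ (Subtype.val '' (closure (Subtype.val ⁻¹' C : Set H)) : Set G) :=
    closure_minimal h2 h1.isClosed
  refine ⟨fun x hx => ?_, h1.of_isClosed_subset isClosed_closure h3⟩
  obtain ⟨y, -, rfl⟩ := h3 hx
  exact y.2

theorem isOpen_coord (i : Idx) (t : ℤˣ) : IsOpen {x : GG | x i = t} :=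
  (isOpen_discrete ({t} : Set ℤˣ)).preimage (continuous_apply i : Continuous fun x : GG => x i)

theorem isClosed_coord (i : Idx) (t : ℤˣ) : IsClosed {x : GG | x i = t} :=
  (isClosed_discrete ({t} : Set ℤˣ)).preimage (continuous_apply i : Continuous fun x : GG => x i)

theorem dense_fin (H : Subgroup GG) (hd : Dense (H : Set GG)) (F : Set Idx) (hF : F.Finite)
    (t : GG) : ∃ x ∈ H, ∀ i ∈ F, x i = t i := by
  let U : Set GG := ⋂ i ∈ F, {x : GG | x i = t i}
  have hU : IsOpen U := hF.isOpen_biInter fun i _ => isOpen_coord i (t i)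
  obtain ⟨x, hxU, hxH⟩ := hd.inter_open_nonempty U hU ⟨t, by simp [U]⟩
  exact ⟨x, hxH, fun i hi => mem_iInter₂.1 hxU i hi⟩

/-- A dense omega-bounded subgroup projects onto every countable subproduct. -/
theorem exists_mem (H : Subgroup GG) (hd : Dense (H : Set GG)) (hb : OmegaBounded H)
    (S : Set Idx) (hS : S.Countable) (t : GG) : ∃ x ∈ H, ∀ i ∈ S, x i = t i := by
  rcases S.eq_empty_or_nonempty with rfl | hne
  · exact ⟨1, H.one_mem, by simp⟩
  obtain ⟨e, he⟩ := hS.exists_eq_range hne
  have hex : ∀ k : ℕ, ∃ x ∈ H, ∀ j ≤ k, x (e j) = t (e j) := by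
    intro k
    obtain ⟨x, hx, hx'⟩ := dense_fin H hd (e '' (Iic k)) ((finite_Iic k).image e) t
    exact ⟨x, hx, fun j hj => hx' _ ⟨j, hj, rfl⟩⟩
  choose x hxH hx using hex
  have hcl := closure_sub H hb (range x) (countable_range x) (by rintro _ ⟨k, rfl⟩; exact hxH k)
  have hle : Filter.map x (atTop : Filter ℕ) ≤ 𝓟 (closure (range x)) := by
    rw [Filter.le_principal_iff, Filter.mem_map]
    exact Eventually.of_forall fun k => subset_closure ⟨k, rfl⟩
  obtain ⟨y, hy, hyc⟩ := hcl.2.exists_mapClusterPt hle
  refine ⟨y, hcl.1 hy, ?_⟩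
  intro i hi
  rw [he] at hi
  obtain ⟨j, rfl⟩ := hi
  have hmem : ∀ᶠ k in atTop, x k ∈ {x : GG | x (e j) = t (e j)} := by
    filter_upwards [eventually_ge_atTop j] with k hk using hx k j hk
  exact (isClosed_coord (e j) (t (e j))).mem_of_mapClusterPt hyc hmem

/-- Elements of `H` adapted to the well order. -/
theorem exists_h (H : Subgroup GG) (hd : Dense (H : Set GG)) (hb : OmegaBounded H) (m : Idx) :
    ∃ x ∈ H, (∀ i < m, x i = 1) ∧ x m = -1 := by
  classical
  obtain ⟨x, hx, hx'⟩ := exists_mem H hd hb (Iic m) (countable_Iic m)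
    (fun i => if i = m then -1 else 1)
  refine ⟨x, hx, fun i hi => ?_, ?_⟩
  · rw [hx' i (mem_Iic.2 hi.le), if_neg hi.ne]
  · rw [hx' m (mem_Iic.2 le_rfl), if_pos rfl]

theorem closure_h_sub (H : Subgroup GG) (hb : OmegaBounded H) (h : Idx → GG)
    (hH : ∀ m, h m ∈ H) (h1 : ∀ m, ∀ i < m, h m i = 1) :
    closure (range h) ⊆ (H : Set GG) := by
  intro x hx
  by_cases hx1 : x = 1
  · rw [hx1]; exact H.one_mem
  obtain ⟨i, hi⟩ : ∃ i, x i ≠ 1 := by
    by_contra hcon
    push Not at hcon
    exact hx1 (funext hcon)
  let U : Set GG := {y : GG | y i = 1}ᶜ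
  have hU : IsOpen U := (isClosed_coord i 1).isOpen_compl
  have hxU : x ∈ closure (U ∩ range h) := hU.inter_closure ⟨hi, hx⟩
  have hsub : U ∩ range h ⊆ h '' (Iic i) := by
    rintro _ ⟨hy, ⟨m, rfl⟩⟩
    refine ⟨m, ?_, rfl⟩
    by_contra hm
    rw [mem_Iic, not_le] at hm
    exact hy (h1 m i hm)
  have hc := closure_sub H hb (U ∩ range h) (((countable_Iic i).image h).mono hsub) (by
    rintro _ ⟨-, ⟨m, rfl⟩⟩; exact hH m)
  exact hc.1 hxU

theorem char_sq (H : Subgroup GG) (χ : PontryaginDual H) (x : H) : χ x * χ x = 1 := by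
  rw [← map_mul]
  have : x * x = 1 := by
    ext i
    simp
  rw [this, map_one]

theorem eq_one_of_arc {z : Circle} (hz : z * z = 1) (hz' : z ∈ Circle.centeredArc (Real.pi / 2)) :
    z = 1 := by
  apply Circle.eq_one_of_forall_pow_mem_centeredArc_pi_div_two
  have h1 : (1 : Circle) ∈ Circle.centeredArc (Real.pi / 2) := by
    rw [Circle.mem_centeredArc (by linarith [Real.pi_pos])]
    simp [Real.pi_pos]
  have key : ∀ n : ℕ, z ^ n ∈ Circle.centeredArc (Real.pi / 2) := by
    intro n
    induction n using Nat.twoStepInduction with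
    | zero => simpa using h1
    | one => simpa using hz'
    | more n ih _ =>
      rw [pow_add, pow_two, hz, mul_one]; exact ih
  exact fun n _ => key n

theorem exists_fin_dep (H : Subgroup GG) (χ : PontryaginDual H) :
    ∃ F : Set Idx, F.Finite ∧ ∀ x : H, (∀ i ∈ F, (x : GG) i = 1) → χ x = 1 := by
  have h1 : (1 : Circle) ∈ Circle.centeredArc (Real.pi / 2) := by
    rw [Circle.mem_centeredArc (by linarith [Real.pi_pos])]
    simp [Real.pi_pos]
  have hopen : IsOpen (χ ⁻¹' Circle.centeredArc (Real.pi / 2)) :=
    (Circle.isOpen_centeredArc _).preimage (map_continuous χ)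
  obtain ⟨V, hV, hVχ⟩ := isOpen_induced_iff.1 hopen
  have hV1 : (1 : GG) ∈ V := by
    have : (1 : H) ∈ Subtype.val ⁻¹' V := by
      rw [hVχ, mem_preimage, map_one]; exact h1
    exact this
  obtain ⟨I, u, hu, huV⟩ := isOpen_pi_iff.1 hV 1 hV1
  refine ⟨I, I.finite_toSet, fun x hx => ?_⟩
  have hxV : (x : GG) ∈ V := by
    apply huV
    intro i hi
    rw [hx i hi]
    exact (hu i hi).2
  have : x ∈ Subtype.val ⁻¹' V := hxV
  rw [hVχ, mem_preimage] at this
  exact eq_one_of_arc (char_sq H χ x) this

/-- A character of `H` killing all the `h m` is trivial. -/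
theorem char_eq_one (H : Subgroup GG) (h : Idx → GG)
    (hH : ∀ m, h m ∈ H) (h1 : ∀ m, ∀ i < m, h m i = 1) (h2 : ∀ m, h m m = -1)
    (χ : PontryaginDual H) (hχ : ∀ m, χ ⟨h m, hH m⟩ = 1) : χ = 1 := by
  classical
  obtain ⟨F, hF, hdep⟩ := exists_fin_dep H χ
  have key : ∀ k : ℕ, ∀ x : H, (hF.toFinset.filter
      (fun i => ∃ j ∈ F, j ≤ i ∧ (x : GG) j ≠ 1)).card ≤ k → χ x = 1 := by
    intro k
    induction k with
    | zero =>
      intro x hx
      apply hdep
      intro i hi
      by_contra hne
      have : i ∈ hF.toFinset.filter (fun i => ∃ j ∈ F, j ≤ i ∧ (x : GG) j ≠ 1) := by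
        rw [Finset.mem_filter]
        exact ⟨hF.mem_toFinset.2 hi, i, hi, le_rfl, hne⟩
      rw [Nat.le_zero, Finset.card_eq_zero] at hx
      rw [hx] at this
      exact absurd this (Finset.notMem_empty _)
    | succ k ih =>
      intro x hx
      by_cases hall : ∀ i ∈ F, (x : GG) i = 1
      · exact hdep x hall
      push Not at hall
      obtain ⟨i₀, hi₀, hi₀'⟩ := hall
      -- the least bad index
      obtain ⟨m, ⟨hmF, hm⟩, hmin⟩ := WellFounded.has_min (wellFounded_lt (α := Idx))
        {i | i ∈ F ∧ (x : GG) i ≠ 1} ⟨i₀, hi₀, hi₀'⟩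
      have hxm : (x : GG) m = -1 := (Int.units_eq_one_or _).resolve_left hm
      have hsmall : ∀ i ∈ F, i < m → (x : GG) i = 1 := by
        intro i hi him
        by_contra hne
        exact hmin i ⟨hi, hne⟩ him
      let y : H := x * ⟨h m, hH m⟩
      have hy : ∀ i, (y : GG) i = (x : GG) i * h m i := fun i => rfl
      have hχy : χ y = χ x := by
        simp only [y]
        rw [map_mul, hχ, mul_one]
      rw [← hχy]
      apply ih
      have hlt : (hF.toFinset.filter (fun i => ∃ j ∈ F, j ≤ i ∧ (y : GG) j ≠ 1)) ⊂
          (hF.toFinset.filter (fun i => ∃ j ∈ F, j ≤ i ∧ (x : GG) j ≠ 1)) := by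
        rw [Finset.ssubset_iff_of_subset]
        · refine ⟨m, ?_, ?_⟩
          · rw [Finset.mem_filter]
            exact ⟨hF.mem_toFinset.2 hmF, m, hmF, le_rfl, hm⟩
          · rw [Finset.mem_filter]
            rintro ⟨-, j, hjF, hjm, hj⟩
            apply hj
            rw [hy]
            rcases eq_or_lt_of_le hjm with rfl | hlt
            · rw [hxm, h2]; rfl
            · rw [hsmall j hjF hlt, h1 m j hlt, mul_one]
        · intro i hi
          rw [Finset.mem_filter] at hi ⊢
          obtain ⟨hiF, j, hjF, hji, hj⟩ := hi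
          refine ⟨hiF, m, hmF, ?_, hm⟩
          by_contra hcon
          push Not at hcon
          have hjm : j < m := lt_of_le_of_lt hji hcon
          apply hj
          rw [hy, hsmall j hjF hjm, h1 m j hjm, mul_one]
      have := Finset.card_lt_card hlt
      omega
  ext x
  rw [key _ x le_rfl]
  rfl

theorem discrete_dual (H : Subgroup GG) (hd : Dense (H : Set GG)) (hb : OmegaBounded H) :
    DiscreteTopology (PontryaginDual H) := by
  choose h hH h1 h2 using exists_h H hd hb
  have hK : IsCompact (closure (range h)) := isClosed_closure.isCompact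
  have hKH := closure_h_sub H hb h hH h1
  have hK' : IsCompact (Subtype.val ⁻¹' closure (range h) : Set H) := by
    rw [Topology.IsInducing.subtypeVal.isCompact_iff]
    have : (Subtype.val '' (Subtype.val ⁻¹' closure (range h) : Set H) : Set GG) =
        closure (range h) := by
      rw [image_preimage_eq_inter_range]
      apply inter_eq_left.2
      intro x hx
      exact ⟨⟨x, hKH hx⟩, rfl⟩
    convert! hK using 1
  let V : Set (PontryaginDual H) :=
    {ψ | Set.MapsTo ψ (Subtype.val ⁻¹' closure (range h)) (Circle.centeredArc (Real.pi / 2))}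
  have hVopen : IsOpen V := by
    dsimp only [V]
    exact isOpen_induced (ContinuousMap.isOpen_setOfPred_mapsTo hK'
      (Circle.isOpen_centeredArc (Real.pi / 2)))
  have hVeq : V = ({1} : Set (PontryaginDual H)) := by
    ext ψ
    rw [Set.mem_singleton_iff]
    refine ⟨fun hψ ↦ ?_, ?_⟩
    · apply char_eq_one H h hH h1 h2 ψ
      intro m
      apply eq_one_of_arc (char_sq H ψ _)
      exact hψ (subset_closure ⟨m, rfl⟩ : h m ∈ closure (range h))
    · rintro rfl _ _
      rw [Circle.mem_centeredArc (by linarith [Real.pi_pos])]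
      simp [Real.pi_pos]
  exact discreteTopology_of_isOpen_singleton_one (by simpa [hVeq] using hVopen)

theorem restrict_injective (H : Subgroup GG) (hd : Dense (H : Set GG)) :
    Function.Injective (fun χ : PontryaginDual GG => PontryaginDual.map (incl H) χ) := by
  intro χ ψ hχψ
  have hfun : (χ : GG → Circle) = ψ := by
    apply Continuous.ext_on hd (map_continuous χ) (map_continuous ψ)
    intro x hx
    have := congrArg (fun φ : PontryaginDual H => φ ⟨x, hx⟩) hχψ
    exact this
  ext x
  rw [hfun]

theorem restrict_surjective (H : Subgroup GG) (hd : Dense (H : Set GG)) :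
    Function.Surjective (fun χ : PontryaginDual GG => PontryaginDual.map (incl H) χ) := by
  intro χ
  obtain ⟨F, hF, hdep⟩ := exists_fin_dep H χ
  have hs := fun y : GG => dense_fin H hd F hF y
  choose s hsH hs using hs
  have hwell : ∀ x y : H, (∀ i ∈ F, (x : GG) i = (y : GG) i) → χ x = χ y := by
    intro x y hxy
    have : χ (x * y) = 1 := by
      apply hdep
      intro i hi
      have : ((x * y : H) : GG) i = (x : GG) i * (y : GG) i := rfl
      rw [this, hxy i hi, sq_one]
    rw [map_mul] at this
    calc χ x = χ x * (χ y * χ y) := by rw [char_sq, mul_one]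
      _ = χ y := by rw [← mul_assoc, this, one_mul]
  let ψ : GG →ₜ* Circle :=
    { toFun := fun y => χ ⟨s y, hsH y⟩
      map_one' := by
        apply hdep
        intro i hi
        exact hs 1 i hi
      map_mul' := by
        intro y z
        rw [← map_mul]
        apply hwell
        intro i hi
        have : ((⟨s y, hsH y⟩ * ⟨s z, hsH z⟩ : H) : GG) i = s y i * s z i := rfl
        rw [this, hs y i hi, hs z i hi]
        exact hs (y * z) i hi
      continuous_toFun := by
        rw [continuous_iff_continuousAt]
        intro y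
        have hopen : IsOpen (⋂ i ∈ F, {x : GG | x i = y i}) :=
          hF.isOpen_biInter fun i _ => isOpen_coord i (y i)
        have hev : (fun z => χ ⟨s z, hsH z⟩) =ᶠ[𝓝 y] fun _ => χ ⟨s y, hsH y⟩ := by
          filter_upwards [hopen.mem_nhds (by simp)] with z hz
          apply hwell
          intro i hi
          simp only
          rw [hs z i hi, hs y i hi]
          exact mem_iInter₂.1 hz i hi
        exact continuousAt_const.congr hev.symm }
  refine ⟨ψ, ?_⟩
  ext x
  have : χ ⟨s (x : GG), hsH x⟩ = χ x := by
    apply hwell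
    intro i hi
    exact hs x i hi
  exact congrArg _ this

theorem not_metrizable : ¬ MetrizableSpace GG := by
  intro hm
  -- the sigma product is dense and sequentially closed
  let D : Set GG := {x | {i | x i ≠ 1}.Countable}
  have hdense : ∀ y : GG, y ∈ closure D := by
    intro y
    rw [mem_closure_iff]
    intro o ho hyo
    obtain ⟨I, u, hu, huo⟩ := isOpen_pi_iff.1 ho y hyo
    classical
    refine ⟨fun i => if i ∈ I then y i else 1, huo ?_, ?_⟩
    · intro i hi
      have : i ∈ I := hi
      simp only [this, if_true]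
      exact (hu i hi).2
    · apply I.countable_toSet.mono
      intro i hi
      by_contra hcon
      exact hi (if_neg hcon)
  obtain ⟨x, hxD, hx⟩ := mem_closure_iff_seq_limit.1 (hdense (fun _ => -1))
  apply uncountable_Idx
  have hcount : (⋃ k, {i | x k i ≠ 1}).Countable := countable_iUnion fun k => hxD k
  apply hcount.mono
  intro i _
  by_contra hcon
  rw [mem_iUnion, not_exists] at hcon
  have h1 : ∀ k, x k i = 1 := fun k => by
    by_contra h; exact hcon k h
  have h2 : Tendsto (fun k => x k i) atTop (𝓝 (-1)) := (continuous_apply i).tendsto _ |>.comp hx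
  simp only [h1] at h2
  have := tendsto_nhds_unique h2 tendsto_const_nhds
  exact absurd this (by decide)

/-- There is a non-metrizable compact abelian group all of whose omega-bounded dense subgroups
determine it. -/
theorem result : ∃ (G : Type) (_ : CommGroup G) (_ : TopologicalSpace G),
    IsTopologicalGroup G ∧ CompactSpace G ∧ T2Space G ∧ ¬ MetrizableSpace G ∧
      ∀ H : Subgroup G, Dense (H : Set G) → OmegaBounded H → Determines H := by
  refine ⟨GG, inferInstance, inferInstance, inferInstance, inferInstance, inferInstance,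
    not_metrizable, ?_⟩
  intro H hd hb
  have := discrete_dual H hd hb
  refine ⟨?_, ?_, restrict_injective H hd, restrict_surjective H hd⟩
  · exact (PontryaginDual.map (incl H)).continuous_toFun
  · intro U _
    exact isOpen_discrete _

end Pool.Agent.Results.MP_04f724_gt.NonMetrizableExample
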